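import Pool.Agent.EDX.Stmts2

/-! # Squad EDX, row MD2 -/

set_option autoImplicit false

namespace Pool.Agent.EDX.H8

open Polynomial Finset Pool.Agent.EDG Module

theorem mem_rts_iff (g : ℤ[X]) (hg : g.Monic) (θ : FF) :
    θ ∈ rts g ↔ eval₂ (Int.castRingHom FF) θ g = 0 := by
  classical
  unfold rts
  rw [Multiset.mem_toFinset, mem_roots (hg.map _).ne_zero, IsRoot.def, eval_map]

theorem pow_mem_rts (g : ℤ[X]) (hg : g.Monic) (θ : FF) (hθ : θ ∈ rts g) (i : ℕ) :
    θ ^ (2 ^ i) ∈ rts g := by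
  rw [mem_rts_iff g hg] at hθ ⊢
  have h1 := hom_eval₂ g (Int.castRingHom FF) (iterateFrobenius FF 2 i) θ
  rw [hθ, map_zero, iterateFrobenius_def] at h1
  have h2 : (iterateFrobenius FF 2 i).comp (Int.castRingHom FF) = Int.castRingHom FF :=
    RingHom.ext_int _ _
  rw [h2] at h1
  exact h1.symm

theorem vt_eq_eval (ω : FF) (Φ : ℤ[X][X]) :
    vt ω Φ = (Φ.map (mapRingHom (Int.castRingHom FF))).eval (C ω) := by
  rw [eval_map]; rfl

theorem md2 (hRED : RedStmt) (hMDA : MdaStmt) (hMDB : MdbStmt) (hMDC : MdcStmt)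
    (hMDD : MddStmt) : Md2Stmt := by
  intro n g hc Φ r hr
  obtain ⟨b, hb1, hb2⟩ := hRED (Fin n × Fin g.natDegree) (LL (mu n g) (Φ.map iK) r)
  refine hMDD n g hc (Th g Φ) _ (fun l x => ((b l x : ℤ) : FF)) hb2 ?_
  intro l θ hθ i hi
  refine hMDC n g hc (fun i θ => (pol (fun x => ((b l x : ℤ) : FF)) i).eval θ)
    (fun ω => vt ω Φ) ?_ θ hθ i ?_
  · intro j hj
    have h1 := hMDA n g hc Φ (b l) r (hb1 l) j (by omega)
    have h2 := hMDB n g hc (fun x => ((b l x : ℤ) : FF))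
      (Φ.map (mapRingHom (Int.castRingHom FF)) * X ^ j) r (by
        refine lt_of_le_of_lt natDegree_mul_le ?_
        rw [natDegree_X_pow]
        have := natDegree_map_le (p := Φ) (f := mapRingHom (Int.castRingHom FF))
        omega)
    rw [h1] at h2
    rw [h2]
    apply sum_congr rfl
    intro θ' _
    apply sum_congr rfl
    intro i' _
    rw [eval_mul, eval_pow, eval_X, ← vt_eq_eval, ← C_pow, ← pow_mul]
  · intro h0
    apply hi
    classical
    unfold Th
    exact mem_filter.mpr ⟨pow_mem_rts g hc.monic θ hθ i, h0⟩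

end Pool.Agent.EDX.H8
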