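import Pool.Agent.EDX.Stmts2
import Pool.Agent.Helper24_EDG.MOA
import Pool.Agent.Helper60_EDG.MOB

/-! # Squad EDX, row MDD -/

set_option autoImplicit false

namespace Pool.Agent.EDX.H8

open Polynomial Finset Pool.Agent.EDG Module

/-- `g` has `D` distinct roots in `FF` -/
theorem card_rts (n : ℕ) (g : ℤ[X]) (hc : Cyc n g) : (rts g).card = g.natDegree := by
  classical
  have h1 : (g.map (Int.castRingHom (ZMod 2))).Separable :=
    (Pool.Agent.EDG.H60.mob Pool.Agent.EDG.H24.moa n g hc).1
  have h2 : (g.map (Int.castRingHom FF)).Separable := by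
    have h3 := h1.map (f := algebraMap (ZMod 2) FF)
    rw [Polynomial.map_map] at h3
    have h4 : (algebraMap (ZMod 2) FF).comp (Int.castRingHom (ZMod 2)) = Int.castRingHom FF :=
      RingHom.ext_int _ _
    rwa [h4] at h3
  unfold rts
  rw [Multiset.toFinset_card_of_nodup (nodup_roots h2),
    IsAlgClosed.card_roots_eq_natDegree (p := g.map (Int.castRingHom FF)), hc.monic.natDegree_map]

theorem frob_inj (i : ℕ) (a b : FF) (h : a ^ (2 ^ i) = b ^ (2 ^ i)) : a = b := by
  have : iterateFrobenius FF 2 i a = iterateFrobenius FF 2 i b := by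
    simpa [iterateFrobenius_def] using h
  exact iterateFrobenius_inj FF 2 i this

theorem mdd : MddStmt := by
  classical
  intro n g hc Θ s b hb hz
  let T : Finset (Fin n × FF) :=
    ((univ : Finset (Fin n)) ×ˢ rts g).filter fun x => x.2 ^ (2 ^ (x.1 : ℕ)) ∈ Θ
  let E : (Fin n × Fin g.natDegree → FF) →ₗ[FF] (T → FF) :=
    { toFun := fun P x => (pol P x.1.1).eval x.1.2
      map_add' := fun P P' => by
        funext x
        simp [pol_add]
      map_smul' := fun a P => by
        funext x
        simp [pol_smul] }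
  have hdis : Disjoint (Submodule.span FF (Set.range b)) (LinearMap.ker E) := by
    rw [Submodule.disjoint_def]
    intro P hP hE
    have h1 : ∀ θ ∈ rts g, ∀ i : Fin n, θ ^ (2 ^ (i : ℕ)) ∉ Θ → (pol P i).eval θ = 0 := by
      intro θ hθ i hi
      clear hE
      induction hP using Submodule.span_induction with
      | mem x hx =>
        obtain ⟨l, rfl⟩ := hx
        exact hz l θ hθ i hi
      | zero =>
        have := pol_smul (0 : FF) (0 : Fin n × Fin g.natDegree → FF) i
        rw [zero_smul] at this
        rw [this]; simp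
      | add x y _ _ hx hy => rw [pol_add, eval_add, hx, hy, add_zero]
      | smul a x _ hx => rw [pol_smul, eval_mul, hx, mul_zero]
    have h2 : ∀ i, pol P i = 0 := by
      intro i
      refine Polynomial.eq_zero_of_degree_lt_of_eval_finset_eq_zero (rts g) ?_ ?_
      · rw [card_rts n g hc]
        exact pol_degree_lt P i
      · intro θ hθ
        by_cases h3 : θ ^ (2 ^ (i : ℕ)) ∈ Θ
        · have h4 : (i, θ) ∈ T := mem_filter.mpr ⟨mem_product.mpr ⟨mem_univ _, hθ⟩, h3⟩
          exact congrFun (LinearMap.mem_ker.mp hE) ⟨(i, θ), h4⟩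
        · exact h1 θ hθ i h3
    funext x
    have h3 := pol_coeff P x.1 x.2
    rw [h2 x.1, coeff_zero] at h3
    exact h3.symm
  have h2 : LinearIndependent FF (E ∘ b) := hb.map hdis
  have h3 := h2.fintype_card_le_finrank
  rw [Fintype.card_fin, Module.finrank_fintype_fun_eq_card, Fintype.card_coe] at h3
  refine h3.trans ?_
  have h4 : T.card ≤ ((univ : Finset (Fin n)) ×ˢ Θ).card := by
    refine Finset.card_le_card_of_injOn (fun x => (x.1, x.2 ^ (2 ^ (x.1 : ℕ)))) ?_ ?_
    · intro x hx
      have hx' := (mem_filter.mp hx).2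
      simpa using hx'
    · intro x _ y _ hxy
      obtain ⟨h5, h6⟩ := Prod.mk.inj hxy
      rw [h5] at h6
      exact Prod.ext h5 (frob_inj _ _ _ h6)
  rwa [card_product, card_univ, Fintype.card_fin] at h4

end Pool.Agent.EDX.H8
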