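import Pool.Agent.EDX.Stmts3

/-! # Squad EDX, row SQA: analytic square root on a disc -/

set_option autoImplicit false

namespace Pool.Agent.EDX.H8

open Polynomial Finset Pool.Agent.EDG Module

theorem sqa : SqaStmt := by
  intro z₀ r u hr hu hne
  have hz₀ : z₀ ∈ Metric.ball z₀ r := Metric.mem_ball_self hr
  have hdu : DifferentiableOn ℂ (deriv u) (Metric.ball z₀ r) := hu.deriv Metric.isOpen_ball
  obtain ⟨v, hv0, hv⟩ := (DifferentiableOn.isExactOn_ball (hdu.div hu hne)).with_val_at z₀ 0
  have hua : ∀ z ∈ Metric.ball z₀ r, HasDerivAt u (deriv u z) z := fun z hz =>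
    ((hu z hz).differentiableAt (Metric.isOpen_ball.mem_nhds hz)).hasDerivAt
  -- the function u * exp (-v)
  have hw : ∀ z ∈ Metric.ball z₀ r, HasDerivAt (fun z => u z * Complex.exp (-v z)) 0 z := by
    intro z hz
    have h1 := (hua z hz).mul (((hv z hz).neg).cexp)
    have h2 : deriv u z * Complex.exp (-v z) +
        u z * (Complex.exp (-v z) * -((deriv u / u) z)) = 0 := by
      rw [Pi.div_apply]
      field_simp [hne z hz]
      ring
    exact h1.congr_deriv h2
  have hconst : ∀ z ∈ Metric.ball z₀ r, u z * Complex.exp (-v z) = u z₀ * Complex.exp (-v z₀) := by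
    intro z hz
    have hd : DifferentiableOn ℂ (fun z => u z * Complex.exp (-v z)) (Metric.ball z₀ r) :=
      fun z hz => (hw z hz).differentiableAt.differentiableWithinAt
    have := (convex_ball z₀ r).is_const_of_fderivWithin_eq_zero (𝕜 := ℂ) hd (by
      intro x hx
      rw [fderivWithin_of_isOpen Metric.isOpen_ball hx]
      have := (hw x hx).hasFDerivAt.fderiv
      rw [this]
      ext
      simp) hz hz₀
    exact this
  have hk : u z₀ * Complex.exp (-v z₀) ≠ 0 := mul_ne_zero (hne z₀ hz₀) (Complex.exp_ne_zero _)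
  set k := u z₀ * Complex.exp (-v z₀) with hkdef
  refine ⟨fun z => Complex.exp ((v z + Complex.log k) / 2), ?_, ?_⟩
  · intro z hz
    exact (((hv z hz).differentiableAt.add_const _).div_const _).cexp.differentiableWithinAt
  · intro z hz
    rw [← Complex.exp_nat_mul]
    have : ((2 : ℕ) : ℂ) * ((v z + Complex.log k) / 2) = v z + Complex.log k := by push_cast; ring
    rw [this, Complex.exp_add, Complex.exp_log hk, ← hconst z hz, mul_comm, mul_assoc,
      ← Complex.exp_add]
    simp

end Pool.Agent.EDX.H8
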